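import Mathlib
import Pool.Agent.R582.SC.Main

/-!
# MP_254f8a_gt, Q1: consistently, discrete subspaces of `SC_p(X × X)` are small
-/

namespace Pool.Agent.Results.MP_254f8a_gt.ConsistentlyNot

open Cardinal Set
open Pool.Agent.R582.SC
open Pool.Agent.H631R2 (Cond)

/-- The statement of Q1: for every infinite `κ` there is a Tychonoff space `X` of weight at most `κ`
such that `SC_p(X × X)` has a discrete subspace of cardinality `2 ^ κ`. -/
def Q1 : Prop :=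
  ∀ κ : Cardinal.{0}, ℵ₀ ≤ κ → ∃ (X : Type) (_ : TopologicalSpace X) (_ : T35Space X),
    (∃ B : Set (Set X), TopologicalSpace.IsTopologicalBasis B ∧ #B ≤ κ) ∧
      ∃ D : Set (SCp X), DiscreteTopology D ∧ #D = 2 ^ κ

/-- (1) If `2 ^ ℵ₁ ≤ |K| = |K| ^ ℵ₀ < |K| ^ ℵ₁` then the forcing notion adding `|K|` Cohen reals
forces the hypothesis `Hyp` on the sets `ω₁` and `ω₁ → K`. (2) `|K| = ℶ_ω₁` is as required in (1).
(3) In ZFC, the hypothesis implies that for every Tychonoff space `X` of weight at most `ℵ₁` every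
discrete subspace of `SC_p(X × X)` has fewer than `2 ^ ℵ₁` elements. (4) So Q1 then fails. -/
theorem result :
    (∀ K : Type, (2 : Cardinal.{0}) ^ (ℵ_ 1 : Cardinal.{0}) ≤ #K →
      #K ^ (ℵ₀ : Cardinal.{0}) = #K → #K < #K ^ (ℵ_ 1 : Cardinal.{0}) →
      ∀ p : Cond (K × ℕ), p ∈ HypN (Cond (K × ℕ)) W (W → K)) ∧
    (∀ μ : Cardinal.{0}, μ = ℶ_ (Ordinal.omega 1) →
      (2 : Cardinal.{0}) ^ (ℵ_ 1 : Cardinal.{0}) ≤ μ ∧ μ ^ (ℵ₀ : Cardinal.{0}) = μ ∧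
        μ < μ ^ (ℵ_ 1 : Cardinal.{0})) ∧
    (∀ (Ω Λ : Type) [LinearOrder Ω], Hyp Ω Λ →
      ∀ (X : Type) [TopologicalSpace X] [T35Space X],
        (∃ B : Set (Set X), TopologicalSpace.IsTopologicalBasis B ∧ #B ≤ ℵ_ 1) →
          ∀ D : Set (SCp X), DiscreteTopology D → #D < 2 ^ (ℵ_ 1 : Cardinal.{0})) ∧
    (∀ (Ω Λ : Type) [LinearOrder Ω], Hyp Ω Λ → ¬ Q1) := by
  refine ⟨fun K h1 h2 h3 p => forced_main K h1 h2 h3 p, ?_, fun Ω Λ _ h => (neg_of_hyp h).2,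
    fun Ω Λ _ h hQ => ?_⟩
  · rintro μ rfl
    exact ⟨two_power_lt.le, beth_power, lt_power⟩
  · obtain ⟨X, _, _, hB, D, hD, hDc⟩ := hQ (ℵ_ 1) (Cardinal.aleph0_le_aleph 1)
    exact absurd hDc ((neg_of_hyp h).2 X hB D hD).ne

end Pool.Agent.Results.MP_254f8a_gt.ConsistentlyNot
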